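import Mathlib

set_option autoImplicit false

open Set Filter Topology Cardinal OnePoint

namespace Pool.Agent.Results.MP_570618_gt.TkachenkoCounterexample

/-! ## Definitions used in the statement -/

/-- The set of continuous real-valued functions on `X`, as a subset of the product space of all
functions `X → ℝ`.  The subspace topology is the topology of pointwise convergence, so that the
subtype `Cp X` is the function space `C_p(X)`. -/
def Cp (X : Type) [TopologicalSpace X] : Set (X → ℝ) := {f | Continuous f}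

/-- `X` is an Eberlein compact space: it is homeomorphic to a weakly compact subset of a
(real) Banach space. -/
def IsEberleinCompact (X : Type) [TopologicalSpace X] : Prop :=
  ∃ (E : Type) (_ : NormedAddCommGroup E) (_ : NormedSpace ℝ E) (_ : CompleteSpace E)
    (K : Set (WeakSpace ℝ E)), IsCompact K ∧ Nonempty (X ≃ₜ K)

/-- The tightness of `Z`: the least infinite cardinal `κ` such that whenever `z` is in the closure
of `A`, there is a subset `A'` of `A` with at most `κ` points having `z` in its closure. -/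
noncomputable def tightness (Z : Type) [TopologicalSpace Z] : Cardinal.{0} :=
  sInf {κ : Cardinal.{0} | ℵ₀ ≤ κ ∧ ∀ (A : Set Z) (z : Z), z ∈ closure A →
    ∃ A' : Set Z, A' ⊆ A ∧ #A' ≤ κ ∧ z ∈ closure A'}

/-- `N` is a network of the space `Z`: every open set is a union of members of `N`. -/
def IsNetwork (Z : Type) [TopologicalSpace Z] (N : Set (Set Z)) : Prop :=
  ∀ U : Set Z, IsOpen U → ∀ z ∈ U, ∃ M ∈ N, z ∈ M ∧ M ⊆ U

/-- The network weight: the least cardinality of a network. -/
noncomputable def networkWeight (Z : Type) [TopologicalSpace Z] : Cardinal.{0} :=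
  sInf {κ : Cardinal.{0} | ∃ N : Set (Set Z), IsNetwork Z N ∧ #N = κ}

/-- `Z` is monolithic: the closure of every infinite subset `A` has network weight at most `|A|`. -/
def IsMonolithic (Z : Type) [TopologicalSpace Z] : Prop :=
  ∀ A : Set Z, A.Infinite → networkWeight (closure A) ≤ #A

/-! ## Invariance under homeomorphisms -/

lemma tightness_le_of_homeomorph {Z Z' : Type} [TopologicalSpace Z] [TopologicalSpace Z']
    (h : Z ≃ₜ Z') : tightness Z ≤ tightness Z' := by
  have hne : {κ : Cardinal.{0} | ℵ₀ ≤ κ ∧ ∀ (A : Set Z') (z : Z'), z ∈ closure A →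
    ∃ A' : Set Z', A' ⊆ A ∧ #A' ≤ κ ∧ z ∈ closure A'}.Nonempty :=
    ⟨max ℵ₀ #Z', le_max_left _ _, fun A z hz => ⟨A, subset_rfl,
      (mk_set_le A).trans (le_max_right _ _), hz⟩⟩
  refine csInf_le' ⟨(csInf_mem hne).1, fun A z hz => ?_⟩
  obtain ⟨A', hA', hcard, hcl⟩ := (csInf_mem hne).2 (h '' A) (h z)
    (by rw [← h.image_closure]; exact mem_image_of_mem _ hz)
  refine ⟨h ⁻¹' A', ?_, ?_, ?_⟩
  · intro x hx
    obtain ⟨y, hy, hxy⟩ := hA' hx
    rwa [← h.injective hxy]
  · have : #(h ⁻¹' A') = #A' := by
      refine Cardinal.mk_congr (h.toEquiv.subtypeEquiv fun a => ?_)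
      rfl
    rw [this]
    exact hcard
  · rw [← h.preimage_closure]
    exact hcl

lemma not_isMonolithic_of_homeomorph {Z Z' : Type} [TopologicalSpace Z] [TopologicalSpace Z']
    (h : Z ≃ₜ Z') (hZ : ¬ IsMonolithic Z) : ¬ IsMonolithic Z' := by
  intro hm
  apply hZ
  intro A hA
  have hA' : (h '' A).Infinite := hA.image h.injective.injOn
  have h1 := hm (h '' A) hA'
  rw [Cardinal.mk_image_eq h.injective] at h1
  refine le_trans ?_ h1
  have hne : {κ : Cardinal.{0} | ∃ N : Set (Set (closure (h '' A))),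
      IsNetwork (closure (h '' A)) N ∧ #N = κ}.Nonempty :=
    ⟨#(univ : Set (Set (closure (h '' A)))), univ, fun U _ z hz => ⟨U, mem_univ _, hz, subset_rfl⟩,
      rfl⟩
  obtain ⟨N, hN, hNc⟩ := csInf_mem hne
  let g : closure A → closure (h '' A) := fun x => ⟨h x, by
    rw [← h.image_closure]; exact mem_image_of_mem _ x.2⟩
  have hgc : Continuous g := by
    apply Continuous.subtype_mk
    exact h.continuous.comp continuous_subtype_val
  have hback : ∀ x ∈ closure (h '' A), h.symm x ∈ closure A := by
    intro x hx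
    rw [← h.image_closure] at hx
    obtain ⟨y, hy, hxy⟩ := hx
    rw [← hxy]
    simpa using hy
  let gi : closure (h '' A) → closure A := fun x => ⟨h.symm x, hback x x.2⟩
  have hgic : Continuous gi := by
    apply Continuous.subtype_mk
    exact h.symm.continuous.comp continuous_subtype_val
  have hgg : ∀ x, gi (g x) = x := fun x => by
    apply Subtype.ext
    simp [g, gi]
  have hgg' : ∀ x, g (gi x) = x := fun x => by
    apply Subtype.ext
    simp [g, gi]
  have hnet : IsNetwork (closure A) ((fun M => g ⁻¹' M) '' N) := by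
    intro U hU z hz
    obtain ⟨M, hMN, hzM, hMU⟩ := hN (gi ⁻¹' U) (hU.preimage hgic) (g z)
      (by rw [mem_preimage, hgg]; exact hz)
    refine ⟨g ⁻¹' M, mem_image_of_mem _ hMN, hzM, ?_⟩
    intro x hx
    have := hMU hx
    rw [mem_preimage, hgg] at this
    exact this
  have h2 : networkWeight (closure A) ≤ #((fun M => g ⁻¹' M) '' N) :=
    csInf_le' ⟨_, hnet, rfl⟩
  exact h2.trans (mk_image_le.trans hNc.le)

/-! ## The well-ordered set of type `ω₁` -/

/-- A well-ordered set of type `ω₁`. -/
abbrev W : Type := (ℵ_ 1 : Cardinal.{0}).ord.ToType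

lemma mk_W : #W = ℵ_ 1 := Cardinal.mk_ord_toType _

lemma countable_Iio (a : W) : (Iio a).Countable := by
  rw [← Cardinal.le_aleph0_iff_set_countable]
  have h : #(Iio a) < ℵ_ 1 := by
    have := Cardinal.mk_Iio_lt a (by simp)
    simpa using this
  have h2 : #(Iio a) < Order.succ ℵ₀ := h.trans_eq Cardinal.succ_aleph0.symm
  exact Order.lt_succ_iff.mp h2

lemma countable_Iic (a : W) : (Iic a).Countable := by
  rw [← Iio_insert]
  exact (countable_Iio a).insert a

lemma not_countable_univ_W : ¬ (univ : Set W).Countable := by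
  rw [← Cardinal.le_aleph0_iff_set_countable, mk_univ, mk_W, not_le]
  exact aleph0_lt_aleph_one

lemma exists_gt_W (s : Set W) (hs : s.Countable) : ∃ b, ∀ a ∈ s, a < b := by
  by_contra h
  push Not at h
  apply not_countable_univ_W
  have : (univ : Set W) ⊆ ⋃ a ∈ s, Iic a := by
    intro b _
    obtain ⟨a, ha, hba⟩ := h b
    exact mem_iUnion₂.2 ⟨a, ha, hba⟩
  exact (hs.biUnion fun a _ => countable_Iic a).mono this

lemma exists_enum : ∃ e : W → W → ℕ, ∀ a, InjOn (e a) (Iio a) := by
  choose e he using fun a : W => Set.countable_iff_exists_injOn.1 (countable_Iio a)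
  exact ⟨e, he⟩

/-! ## One-point compactifications of discrete spaces are Eberlein compact -/

lemma isEberleinCompact_onePoint (Γ : Type) [TopologicalSpace Γ] [DiscreteTopology Γ] :
    IsEberleinCompact (OnePoint Γ) := by
  classical
  let E := lp (fun _ : Γ => ℝ) 2
  let φ : OnePoint Γ → WeakSpace ℝ E := fun x =>
    toWeakSpace ℝ E (x.elim 0 (fun γ => lp.single 2 γ (1 : ℝ)))
  have hφc : Continuous φ := by
    refine WeakBilin.continuous_of_continuous_eval _ fun y => ?_
    rw [OnePoint.continuous_iff_from_discrete]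
    have h1 : ∀ x : E, y x = inner ℝ ((InnerProductSpace.toDual ℝ E).symm y) x := by
      intro x
      rw [InnerProductSpace.toDual_symm_apply]
    set v : E := (InnerProductSpace.toDual ℝ E).symm y with hv
    have h2 : ∀ γ : Γ, y (lp.single 2 γ (1 : ℝ)) = v γ := by
      intro γ
      rw [h1, lp.inner_single_right]
      simp
    have h3 : Tendsto (fun γ : Γ => v γ) cofinite (𝓝 0) := by
      have hs : Summable fun γ : Γ => ‖v γ‖ ^ (2 : ℝ) := by
        have := (lp.memℓp v).summable (by norm_num)
        simpa using this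
      have h4 := hs.tendsto_cofinite_zero
      have h5 : Tendsto (fun γ : Γ => (‖v γ‖ ^ (2 : ℝ)) ^ ((1 : ℝ) / 2)) cofinite
          (𝓝 ((0 : ℝ) ^ ((1 : ℝ) / 2))) :=
        h4.rpow_const (Or.inr (by norm_num))
      rw [Real.zero_rpow (by norm_num)] at h5
      rw [tendsto_zero_iff_norm_tendsto_zero]
      refine h5.congr fun γ => ?_
      rw [← Real.rpow_mul (norm_nonneg _)]
      norm_num
    have h6 : (fun γ : Γ => ((topDualPairing ℝ E).flip (φ γ)) y) = fun γ : Γ => v γ := by
      funext γ
      exact h2 γ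
    have h7 : ((topDualPairing ℝ E).flip (φ ∞)) y = 0 := by
      change y (0 : E) = 0
      exact map_zero y
    rw [h7, h6]
    exact h3
  have hφi : Function.Injective φ := by
    have hinj : ∀ x y : OnePoint Γ, x.elim (0 : E) (fun γ => lp.single 2 γ (1 : ℝ)) =
        y.elim (0 : E) (fun γ => lp.single 2 γ (1 : ℝ)) → x = y := by
      intro x y hxy
      induction x using OnePoint.rec with
      | infty =>
        induction y using OnePoint.rec with
        | infty => rfl
        | coe b =>
          exfalso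
          have := congrArg (fun f : E => f b) hxy
          simp at this
      | coe a =>
        induction y using OnePoint.rec with
        | infty =>
          exfalso
          have := congrArg (fun f : E => f a) hxy
          simp at this
        | coe b =>
          by_contra hne
          have hab : a ≠ b := fun h => hne (by rw [h])
          have := congrArg (fun f : E => f a) hxy
          simp [hab] at this
    intro x y hxy
    exact hinj x y ((toWeakSpace ℝ E).injective hxy)
  exact ⟨E, inferInstance, inferInstance, inferInstance, range φ, isCompact_range hφc,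
    ⟨(hφc.isClosedEmbedding hφi).toIsEmbedding.toHomeomorph⟩⟩

/-! ## The realization theorem -/

/-- The index set `W ⊕ L` with the discrete topology. -/
def Idx (L : Type) : Type := W ⊕ L

instance (L : Type) : TopologicalSpace (Idx L) := ⊥

instance (L : Type) : DiscreteTopology (Idx L) := ⟨rfl⟩

section Realize

variable {L : Type} (e : W → W → ℕ) (ι : L → W)

open Classical in
/-- The functions `d_y`, `y ∈ L`. -/
noncomputable def dfun (y : L) : OnePoint (Idx L) → ℝ := fun x =>
  x.elim 0 (Sum.elim (fun b : W => if b < ι y then 1 / ((e (ι y) b : ℝ) + 1) else 0)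
    (fun z : L => if z = y then 1 else 0))

/-- The point of `OnePoint (Idx L)` coming from an element of `W`. -/
def pW (b : W) : OnePoint (Idx L) := OnePoint.some (Sum.inl b : W ⊕ L)

/-- The point of `OnePoint (Idx L)` coming from an element of `L`. -/
def pL (z : L) : OnePoint (Idx L) := OnePoint.some (Sum.inr z : W ⊕ L)

lemma dfun_infty (y : L) : dfun e ι y ∞ = 0 := rfl

lemma dfun_pW_lt {y : L} {b : W} (h : b < ι y) :
    dfun e ι y (pW b) = 1 / ((e (ι y) b : ℝ) + 1) := by
  change (if b < ι y then 1 / ((e (ι y) b : ℝ) + 1) else 0) = _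
  rw [if_pos h]

lemma dfun_pW_ge {y : L} {b : W} (h : ι y ≤ b) : dfun e ι y (pW b) = 0 := by
  change (if b < ι y then 1 / ((e (ι y) b : ℝ) + 1) else 0) = _
  rw [if_neg (not_lt.2 h)]

lemma dfun_pL_self (y : L) : dfun e ι y (pL y) = 1 := by
  classical
  change (if y = y then (1 : ℝ) else 0) = _
  rw [if_pos rfl]

lemma dfun_pL_ne {y z : L} (h : z ≠ y) : dfun e ι y (pL z) = 0 := by
  classical
  change (if z = y then (1 : ℝ) else 0) = _
  rw [if_neg h]

lemma continuous_dfun (he : ∀ a, InjOn (e a) (Iio a)) (y : L) : Continuous (dfun e ι y) := by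
  rw [OnePoint.continuous_iff_from_discrete, dfun_infty, Metric.tendsto_nhds]
  intro ε hε
  rw [Filter.eventually_cofinite]
  obtain ⟨n, hn⟩ := exists_nat_gt (1 / ε)
  have hfin : ({b : W | b < ι y ∧ e (ι y) b < n}).Finite := by
    refine Set.Finite.of_finite_image (f := e (ι y)) ?_ ?_
    · refine (Set.finite_Iio n).subset ?_
      rintro _ ⟨b, hb, rfl⟩
      exact hb.2
    · exact (he (ι y)).mono fun b hb => hb.1
  have hfin2 : ((fun b : W => (Sum.inl b : W ⊕ L)) '' {b : W | b < ι y ∧ e (ι y) b < n} ∪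
      {(Sum.inr y : W ⊕ L)}).Finite := (hfin.image _).union (finite_singleton _)
  refine hfin2.subset ?_
  intro x hx
  replace hx : ¬ dist (dfun e ι y (OnePoint.some x)) 0 < ε := hx
  rw [not_lt] at hx
  rcases x with b | z
  · left
    change ε ≤ dist (dfun e ι y (pW b)) 0 at hx
    by_cases hb : b < ι y
    · rw [dfun_pW_lt e ι hb] at hx
      refine ⟨b, ⟨hb, ?_⟩, rfl⟩
      rw [Real.dist_eq, sub_zero, abs_of_pos (by positivity)] at hx
      have h1 : ((e (ι y) b : ℝ) + 1) ≤ 1 / ε := by
        rw [le_div_iff₀ hε]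
        rw [le_div_iff₀ (by positivity)] at hx
        linarith
      have h2 : (e (ι y) b : ℝ) < n := by linarith
      exact_mod_cast h2
    · rw [dfun_pW_ge e ι (not_lt.1 hb)] at hx
      simp at hx
      linarith
  · right
    change ε ≤ dist (dfun e ι y (pL z)) 0 at hx
    by_cases hz : z = y
    · rw [hz]
      rfl
    · rw [dfun_pL_ne e ι hz] at hx
      simp at hx
      linarith

/-- The dense subset `S` of `C_p(X)`. -/
def Sset : Set (Cp (OnePoint (Idx L))) :=
  {f | (f : OnePoint (Idx L) → ℝ) ∞ ≠ 0 ∨ ∃ y : L, (f : OnePoint (Idx L) → ℝ) = dfun e ι y}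

lemma dense_Sset : Dense (Sset e ι) := by
  intro f
  -- the sequence `f + 1/(n+1)` or a subsequence
  by_cases hf : (f : OnePoint (Idx L) → ℝ) ∞ = 0
  · let g : ℕ → Cp (OnePoint (Idx L)) := fun n =>
      ⟨fun x => (f : OnePoint (Idx L) → ℝ) x + 1 / ((n : ℝ) + 1), by
        have := f.2
        change Continuous _ at this
        change Continuous _
        exact this.add continuous_const⟩
    have hg : Tendsto g atTop (𝓝 f) := by
      rw [tendsto_subtype_rng, tendsto_pi_nhds]
      intro x
      have := (tendsto_one_div_add_atTop_nhds_zero_nat (𝕜 := ℝ)).const_add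
        ((f : OnePoint (Idx L) → ℝ) x)
      rw [add_zero] at this
      exact this
    refine mem_closure_of_tendsto hg (Eventually.of_forall fun n => ?_)
    left
    change (f : OnePoint (Idx L) → ℝ) ∞ + 1 / ((n : ℝ) + 1) ≠ 0
    rw [hf, zero_add]
    positivity
  · exact subset_closure (Or.inl hf)

/-- weights -/
lemma exists_weight (K : Set L) (hK : K.Countable) :
    ∃ w : L → ℝ, (∀ z, 0 ≤ w z) ∧ (∀ z ∈ K, 0 < w z) ∧ (∀ z ∉ K, w z = 0) ∧ Summable w := by
  classical
  obtain ⟨n, hn⟩ := Set.countable_iff_exists_injOn.1 hK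
  refine ⟨K.indicator fun z => (1 / 2 : ℝ) ^ n z, ?_, ?_, ?_, ?_⟩
  · intro z
    exact Set.indicator_nonneg (fun _ _ => by positivity) z
  · intro z hz
    rw [Set.indicator_of_mem hz]
    positivity
  · intro z hz
    exact Set.indicator_of_notMem hz _
  · rw [← summable_subtype_iff_indicator]
    have hinj : Function.Injective (fun z : K => n z) := fun a b hab =>
      Subtype.ext (hn a.2 b.2 hab)
    exact summable_geometric_two.comp_injective hinj

/-- The function `G_g` : numerator. -/
noncomputable def num (w g : L → ℝ) (f : OnePoint (Idx L) → ℝ) : ℝ :=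
  ∑' z, w z * g z * min 1 |f (pL z) - f ∞|

/-- The function `G_g` : denominator. -/
noncomputable def den (w : L → ℝ) (b : W) (f : OnePoint (Idx L) → ℝ) : ℝ :=
  |f ∞| + |f (pW b)| + ∑' z, w z * min 1 |f (pL z) - f ∞|

lemma continuous_num (w g : L → ℝ) (hw : ∀ z, 0 ≤ w z) (hws : Summable w)
    (hg : ∀ z, g z ∈ Icc (0 : ℝ) 1) : Continuous (num w g) := by
  unfold num
  refine continuous_tsum (u := w) ?_ hws ?_
  · intro z
    fun_prop
  · intro z f
    have h1 : 0 ≤ min 1 |f (pL z) - f ∞| := le_min zero_le_one (abs_nonneg _)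
    have h2 : min 1 |f (pL z) - f ∞| ≤ 1 := min_le_left _ _
    rw [Real.norm_eq_abs, abs_of_nonneg (mul_nonneg (mul_nonneg (hw z) (hg z).1) h1)]
    calc w z * g z * min 1 |f (pL z) - f ∞| ≤ w z * 1 * 1 := by
          refine mul_le_mul ?_ h2 h1 (by have := hw z; positivity)
          exact mul_le_mul_of_nonneg_left (hg z).2 (hw z)
      _ = w z := by ring

lemma continuous_den (w : L → ℝ) (b : W) (hw : ∀ z, 0 ≤ w z) (hws : Summable w) :
    Continuous (den w b) := by
  unfold den
  refine Continuous.add (by fun_prop) ?_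
  have := continuous_num w (fun _ => 1) hw hws (fun _ => ⟨zero_le_one, le_rfl⟩)
  unfold num at this
  simpa using this

lemma tsum_nonneg_aux (w : L → ℝ) (hw : ∀ z, 0 ≤ w z) (f : OnePoint (Idx L) → ℝ) :
    0 ≤ ∑' z, w z * min 1 |f (pL z) - f ∞| :=
  tsum_nonneg fun z => mul_nonneg (hw z) (le_min zero_le_one (abs_nonneg _))

lemma num_dfun (w g : L → ℝ) (y : L) : num w g (dfun e ι y) = w y * g y := by
  unfold num
  rw [tsum_eq_single y]
  · rw [dfun_pL_self, dfun_infty]
    simp
  · intro z hz
    rw [dfun_pL_ne e ι hz, dfun_infty]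
    simp

lemma den_dfun (w : L → ℝ) (b : W) (y : L) :
    den w b (dfun e ι y) = |dfun e ι y (pW b)| + w y := by
  have := num_dfun e ι w (fun _ => 1) y
  unfold num at this
  simp only [mul_one] at this
  unfold den
  rw [this, dfun_infty]
  simp

lemma num_const (w g : L → ℝ) (c : ℝ) : num w g (fun _ => c) = 0 := by
  unfold num
  simp

lemma den_pos (w : L → ℝ) (b : W) (hw : ∀ z, 0 ≤ w z) (hwb : ∀ z, ι z ≤ b → 0 < w z)
    (f : Cp (OnePoint (Idx L))) (hf : f ∈ Sset e ι) : 0 < den w b f := by
  rcases hf with hf | ⟨y, hy⟩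
  · have h1 := tsum_nonneg_aux w hw f
    have h2 : 0 < |(f : OnePoint (Idx L) → ℝ) ∞| := abs_pos.2 hf
    have h3 := abs_nonneg ((f : OnePoint (Idx L) → ℝ) (pW b))
    unfold den
    linarith
  · rw [hy, den_dfun]
    by_cases hb : ι y ≤ b
    · have := hwb y hb
      have := abs_nonneg (dfun e ι y (pW b))
      linarith
    · have h1 : 0 < |dfun e ι y (pW b)| := by
        rw [dfun_pW_lt e ι (not_le.1 hb)]
        positivity
      have := hw y
      linarith

end Realize

/-- Continuous functions `OnePoint L → [0,1]` vanishing at infinity with countable support. -/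
def CFun (L : Type) [TopologicalSpace L] : Type :=
  {g : OnePoint L → ℝ // Continuous g ∧ (∀ x, g x ∈ Icc (0 : ℝ) 1) ∧ g ∞ = 0 ∧
    {z : L | g z ≠ 0}.Countable}

lemma exists_cFun {L : Type} [TopologicalSpace L] [T2Space L] [WeaklyLocallyCompactSpace L]
    (hL : ∀ x : L, ∃ U ∈ 𝓝 x, U.Countable) (a : L) (y : OnePoint L) (hy : y ≠ a) :
    ∃ g : CFun L, g.1 a = 1 ∧ g.1 y = 0 := by
  obtain ⟨U, hU, hUc⟩ := hL a
  have hVo : IsOpen ((OnePoint.some '' interior U : Set (OnePoint L)) \ {y}) :=
    (OnePoint.isOpen_image_coe.2 isOpen_interior).sdiff isClosed_singleton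
  obtain ⟨f, hf0, hf1, hf⟩ := exists_continuous_zero_one_of_isClosed hVo.isClosed_compl
    (isClosed_singleton (x := (a : OnePoint L))) (by
      rw [Set.disjoint_singleton_right]
      simp only [mem_compl_iff, not_not]
      exact ⟨mem_image_of_mem _ (mem_interior_iff_mem_nhds.2 hU), fun h => hy h.symm⟩)
  refine ⟨⟨f, f.continuous, hf, ?_, ?_⟩, ?_, ?_⟩
  · refine hf0 ?_
    rintro ⟨⟨z, _, hz⟩, _⟩
    exact OnePoint.coe_ne_infty z hz
  · refine hUc.mono ?_
    intro z hz
    by_contra hzU
    apply hz
    refine hf0 ?_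
    rintro ⟨⟨z', hz', hzz⟩, _⟩
    rw [OnePoint.coe_eq_coe] at hzz
    rw [hzz] at hz'
    exact hzU (interior_subset hz')
  · exact hf1 rfl
  · refine hf0 ?_
    rintro ⟨_, h⟩
    exact h rfl

theorem realize {L : Type} [TopologicalSpace L] [T2Space L] [WeaklyLocallyCompactSpace L]
    (hL : ∀ x : L, ∃ U ∈ 𝓝 x, U.Countable) (hcard : #L ≤ ℵ_ 1) :
    ∃ (X : Type) (_ : TopologicalSpace X), IsEberleinCompact X ∧
      ∃ S : Set (Cp X), Dense S ∧
        ∃ (Y : Type) (_ : TopologicalSpace Y) (_ : T35Space Y) (f : S → Y),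
          Continuous f ∧ Function.Surjective f ∧
          ∃ B : Set Y, IsCompact B ∧ Nonempty (OnePoint L ≃ₜ B) := by
  obtain ⟨e, he⟩ := exists_enum
  rw [← mk_W] at hcard
  obtain ⟨ι⟩ := (Cardinal.le_def _ _).1 hcard
  have hι := ι.injective
  have hb : ∀ g : CFun L, ∃ b : W, ∀ z : L, g.1 z ≠ 0 → ι z < b := by
    intro g
    obtain ⟨b, hb⟩ := exists_gt_W (ι '' {z : L | g.1 z ≠ 0}) (g.2.2.2.2.image ι)
    exact ⟨b, fun z hz => hb _ (mem_image_of_mem _ hz)⟩
  choose b hb using hb
  have hK : ∀ c : W, ({z : L | ι z ≤ c}).Countable := fun c =>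
    (countable_Iic c).preimage_of_injOn hι.injOn
  choose w hw0 hwpos hwz hws using fun c : W => exists_weight _ (hK c)
  let G : Sset e ι → CFun L → ℝ := fun f g =>
    num (w (b g)) (fun z => g.1 z) f.1 / den (w (b g)) (b g) f.1
  have hval : Continuous (fun f : Sset e ι => ((f.1 : Cp (OnePoint (Idx L))) :
      OnePoint (Idx L) → ℝ)) := continuous_subtype_val.comp continuous_subtype_val
  have hGc : Continuous G := by
    refine continuous_pi fun g => ?_
    refine Continuous.div ?_ ?_ ?_
    · exact (continuous_num (w (b g)) (fun z => g.1 z) (hw0 _) (hws _)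
        (fun z => g.2.2.1 z)).comp hval
    · exact (continuous_den (w (b g)) (b g) (hw0 _) (hws _)).comp hval
    · intro f
      exact (den_pos e ι (w (b g)) (b g) (hw0 _) (fun z hz => hwpos _ z hz) f.1 f.2).ne'
  have hone : (fun _ => (1 : ℝ) : OnePoint (Idx L) → ℝ) ∈ Cp (OnePoint (Idx L)) :=
    continuous_const
  have hmem : ∀ x : OnePoint L, (fun g : CFun L => g.1 x) ∈ range G := by
    intro x
    induction x using OnePoint.rec with
    | infty =>
      refine ⟨⟨⟨fun _ => (1 : ℝ), hone⟩, Or.inl one_ne_zero⟩, ?_⟩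
      funext g
      change num (w (b g)) (fun z => g.1 z) (fun _ => 1) / _ = _
      rw [num_const, zero_div, g.2.2.2.1]
    | coe y =>
      refine ⟨⟨⟨dfun e ι y, continuous_dfun e ι he y⟩, Or.inr ⟨y, rfl⟩⟩, ?_⟩
      funext g
      change num (w (b g)) (fun z => g.1 z) (dfun e ι y) / den (w (b g)) (b g) (dfun e ι y) = _
      rw [num_dfun, den_dfun]
      by_cases hy : ι y ≤ b g
      · rw [dfun_pW_ge e ι hy, abs_zero, zero_add]
        have := hwpos (b g) y hy
        field_simp
      · have h0 : g.1 y = 0 := by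
          by_contra h
          exact hy (hb g y h).le
        rw [h0]
        simp
  let h : OnePoint L → range G := fun x => ⟨fun g => g.1 x, hmem x⟩
  have hhc : Continuous h := Continuous.subtype_mk (continuous_pi fun g => g.2.1) _
  have hhi : Function.Injective h := by
    intro x y hxy
    by_contra hne
    have hxy' : ∀ g : CFun L, g.1 x = g.1 y := fun g =>
      congrFun (congrArg Subtype.val hxy) g
    by_cases hx : x = ∞
    · have hy : y ≠ ∞ := fun h => hne (hx.trans h.symm)
      obtain ⟨a, rfl⟩ := OnePoint.ne_infty_iff_exists.1 hy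
      obtain ⟨g, hg1, hg0⟩ := exists_cFun hL a x hne
      have := hxy' g
      rw [hg1, hg0] at this
      norm_num at this
    · obtain ⟨a, rfl⟩ := OnePoint.ne_infty_iff_exists.1 hx
      obtain ⟨g, hg1, hg0⟩ := exists_cFun hL a y (fun h => hne h.symm)
      have := hxy' g
      rw [hg1, hg0] at this
      norm_num at this
  refine ⟨OnePoint (Idx L), inferInstance, isEberleinCompact_onePoint _, Sset e ι,
    dense_Sset e ι, range G, inferInstance, inferInstance, rangeFactorization G,
    hGc.rangeFactorization, rangeFactorization_surjective, range h, isCompact_range hhc,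
    ⟨(hhc.isClosedEmbedding hhi).toIsEmbedding.toHomeomorph⟩⟩

/-! ## The space `ω₁` with its order topology -/

/-- `W` with the order topology. -/
def WT : Type := W

noncomputable instance : LinearOrder WT := inferInstanceAs (LinearOrder W)
noncomputable instance : WellFoundedLT WT := inferInstanceAs (WellFoundedLT W)
noncomputable instance : TopologicalSpace WT := Preorder.topology WT
instance : OrderTopology WT := ⟨rfl⟩

lemma exists_gt_WT (s : Set WT) (hs : s.Countable) : ∃ b, ∀ a ∈ s, a < b := exists_gt_W s hs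

lemma countable_Iic_WT (a : WT) : (Iic a).Countable := countable_Iic a

lemma isCompact_Iic_WT (b : WT) : IsCompact (Iic b) := by
  have : Nonempty WT := ⟨b⟩
  let _ : OrderBot WT := WellFoundedLT.toOrderBot WT
  let _ := WellFoundedLT.conditionallyCompleteLinearOrderBot WT
  rw [← Icc_bot]
  exact isCompact_Icc

instance : WeaklyLocallyCompactSpace WT := by
  constructor
  intro a
  obtain ⟨b, hb⟩ := exists_gt_WT {a} (countable_singleton a)
  exact ⟨Iic b, isCompact_Iic_WT b, mem_of_superset (Iio_mem_nhds (hb a rfl)) Iio_subset_Iic_self⟩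

/-! ## A `Ψ`-like space of cardinality `ℵ₁` -/

lemma exists_code : ∃ x : W → ℕ → Bool, Function.Injective x := by
  have h : #W ≤ #(ℕ → Bool) := by
    rw [mk_W]
    refine aleph_one_le_continuum.trans ?_
    simp
  obtain ⟨x⟩ := (Cardinal.le_def _ _).1 h
  exact ⟨x, x.injective⟩

/-- An injection of `ω₁` in the Cantor set. -/
noncomputable def code : W → ℕ → Bool := Classical.choose exists_code

lemma code_injective : Function.Injective code := Classical.choose_spec exists_code

/-- The branch of the binary tree. -/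
noncomputable def branch (w : W) (n : ℕ) : List Bool := List.ofFn fun i : Fin n => code w i

lemma length_branch (w : W) (n : ℕ) : (branch w n).length = n := by
  simp [branch]

lemma branch_ne {w w' : W} (h : w ≠ w') : ∃ m : ℕ, ∀ n n' : ℕ, m < n → branch w n ≠ branch w' n' := by
  have h1 : code w ≠ code w' := fun h' => h (code_injective h')
  obtain ⟨m, hm⟩ := Function.ne_iff.1 h1
  refine ⟨m, fun n n' hn heq => hm ?_⟩
  have h2 : n = n' := by
    have := congrArg List.length heq
    rwa [length_branch, length_branch] at this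
  subst h2
  have h3 := List.ofFn_injective heq
  exact congrFun h3 ⟨m, hn⟩

/-- The points of the `Ψ`-like space: the binary tree and `ω₁` many branches. -/
def Psi : Type := List Bool ⊕ W

/-- Tree points. -/
def Psi.node (l : List Bool) : Psi := Sum.inl l
/-- Branch points. -/
def Psi.lim (w : W) : Psi := Sum.inr w

instance : TopologicalSpace Psi where
  IsOpen U := ∀ w : W, Psi.lim w ∈ U → ∀ᶠ n in atTop, Psi.node (branch w n) ∈ U
  isOpen_univ := fun _ _ => Eventually.of_forall fun _ => mem_univ _
  isOpen_inter := fun _ _ hU hV w hw => (hU w hw.1).and (hV w hw.2)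
  isOpen_sUnion := fun S hS w hw => by
    obtain ⟨U, hU, hwU⟩ := hw
    exact (hS U hU w hwU).mono fun n hn => ⟨U, hU, hn⟩

lemma Psi.isOpen_iff {U : Set Psi} :
    IsOpen U ↔ ∀ w : W, Psi.lim w ∈ U → ∀ᶠ n in atTop, Psi.node (branch w n) ∈ U := Iff.rfl

lemma Psi.tendsto_branch (w : W) :
    Tendsto (fun n => Psi.node (branch w n)) atTop (𝓝 (Psi.lim w)) := by
  rw [tendsto_nhds]
  intro U hU hw
  exact (Psi.isOpen_iff.1 hU) w hw

lemma Psi.isOpen_singleton_node (l : List Bool) : IsOpen {Psi.node l} := by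
  rw [Psi.isOpen_iff]
  intro w hw
  have h : Psi.lim w = Psi.node l := hw
  exact absurd h (by simp [Psi.lim, Psi.node])

/-- basic neighbourhoods of branch points -/
def Psi.nb (w : W) (m : ℕ) : Set Psi :=
  insert (Psi.lim w) (range fun n => Psi.node (branch w (n + m)))

lemma Psi.isOpen_nb (w : W) (m : ℕ) : IsOpen (Psi.nb w m) := by
  rw [Psi.isOpen_iff]
  intro w' hw'
  have hww : w' = w := by
    rcases hw' with h | ⟨n, hn⟩
    · exact Sum.inr_injective h
    · exact absurd hn (by simp [Psi.lim, Psi.node])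
  subst hww
  filter_upwards [eventually_ge_atTop m] with n hn
  right
  exact ⟨n - m, by simp [Nat.sub_add_cancel hn]⟩

lemma Psi.isCompact_nb (w : W) (m : ℕ) : IsCompact (Psi.nb w m) :=
  ((Psi.tendsto_branch w).comp (tendsto_add_atTop_nat m)).isCompact_insert_range

lemma Psi.countable_nb (w : W) (m : ℕ) : (Psi.nb w m).Countable :=
  (countable_range _).insert _

instance : WeaklyLocallyCompactSpace Psi := by
  constructor
  rintro (l | w)
  · exact ⟨{Psi.node l}, isCompact_singleton, (Psi.isOpen_singleton_node l).mem_nhds rfl⟩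
  · exact ⟨Psi.nb w 0, Psi.isCompact_nb w 0, (Psi.isOpen_nb w 0).mem_nhds (mem_insert _ _)⟩

lemma Psi.exists_countable_nhds (x : Psi) : ∃ U ∈ 𝓝 x, U.Countable := by
  rcases x with l | w
  · exact ⟨{Psi.node l}, (Psi.isOpen_singleton_node l).mem_nhds rfl, countable_singleton _⟩
  · exact ⟨Psi.nb w 0, (Psi.isOpen_nb w 0).mem_nhds (mem_insert _ _), Psi.countable_nb w 0⟩

lemma Psi.node_notMem_nb (l : List Bool) (w : W) : Psi.node l ∉ Psi.nb w (l.length + 1) := by
  rintro (h | ⟨n, hn⟩)
  · exact absurd h (by simp [Psi.lim, Psi.node])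
  · have h1 : branch w (n + (l.length + 1)) = l := Sum.inl_injective hn
    have h2 := congrArg List.length h1
    rw [length_branch] at h2
    omega

instance : T2Space Psi := by
  constructor
  rintro (l | w) (l' | w') hne
  · refine ⟨{Psi.node l}, {Psi.node l'}, Psi.isOpen_singleton_node l, Psi.isOpen_singleton_node l',
      rfl, rfl, ?_⟩
    rw [disjoint_singleton]
    exact hne
  · refine ⟨{Psi.node l}, Psi.nb w' (l.length + 1), Psi.isOpen_singleton_node l,
      Psi.isOpen_nb _ _, rfl, mem_insert _ _, ?_⟩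
    rw [disjoint_singleton_left]
    exact Psi.node_notMem_nb l w'
  · refine ⟨Psi.nb w (l'.length + 1), {Psi.node l'}, 
      Psi.isOpen_nb _ _, Psi.isOpen_singleton_node l', mem_insert _ _, rfl, ?_⟩
    rw [disjoint_singleton_right]
    exact Psi.node_notMem_nb l' w
  · have hne' : w ≠ w' := fun h => hne (by rw [h])
    obtain ⟨m, hm⟩ := branch_ne hne'
    refine ⟨Psi.nb w (m + 1), Psi.nb w' (m + 1), Psi.isOpen_nb _ _, Psi.isOpen_nb _ _,
      mem_insert _ _, mem_insert _ _, ?_⟩
    rw [Set.disjoint_left]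
    rintro x (hx | ⟨n, hn⟩) (hx' | ⟨n', hn'⟩)
    · exact hne' (Sum.inr_injective (hx.symm.trans hx'))
    · rw [hx] at hn'
      exact absurd hn' (by simp [Psi.lim, Psi.node])
    · rw [hx'] at hn
      exact absurd hn (by simp [Psi.lim, Psi.node])
    · have h1 : branch w (n + (m + 1)) = branch w' (n' + (m + 1)) :=
        Sum.inl_injective (hn.trans hn'.symm)
      exact hm _ _ (by omega) h1

/-! ## The compact space `K = OnePoint (ω₁ ⊕ Ψ)` -/

/-- The locally compact space `ω₁ ⊕ Ψ`. -/
abbrev LL : Type := WT ⊕ Psi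

instance : WeaklyLocallyCompactSpace LL := by
  constructor
  rintro (a | x)
  · obtain ⟨K, hK, hKa⟩ := exists_compact_mem_nhds a
    refine ⟨Sum.inl '' K, hK.image continuous_inl, ?_⟩
    rw [IsOpenEmbedding.inl.image_mem_nhds]
    exact hKa
  · obtain ⟨K, hK, hKa⟩ := exists_compact_mem_nhds x
    refine ⟨Sum.inr '' K, hK.image continuous_inr, ?_⟩
    rw [IsOpenEmbedding.inr.image_mem_nhds]
    exact hKa

lemma LL_countable_nhds (x : LL) : ∃ U ∈ 𝓝 x, U.Countable := by
  rcases x with a | x
  · obtain ⟨b, hb⟩ := exists_gt_WT {a} (countable_singleton a)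
    refine ⟨Sum.inl '' Iic b, ?_, (countable_Iic_WT b).image _⟩
    rw [IsOpenEmbedding.inl.image_mem_nhds]
    exact mem_of_superset (Iio_mem_nhds (hb a rfl)) Iio_subset_Iic_self
  · obtain ⟨U, hU, hUc⟩ := Psi.exists_countable_nhds x
    refine ⟨Sum.inr '' U, ?_, hUc.image _⟩
    rw [IsOpenEmbedding.inr.image_mem_nhds]
    exact hU

lemma mk_LL : #LL ≤ ℵ_ 1 := by
  have h1 : #WT = ℵ_ 1 := mk_W
  have h2 : #Psi = #(List Bool) + #W := by
    change #(List Bool ⊕ W) = _
    rw [Cardinal.mk_sum, Cardinal.lift_id, Cardinal.lift_id]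
  rw [Cardinal.mk_sum, Cardinal.lift_id, Cardinal.lift_id, h1, h2, mk_W]
  have h3 : #(List Bool) ≤ ℵ_ 1 := (Cardinal.mk_le_aleph0 (α := List Bool)).trans
    (aleph0_le_aleph 1)
  refine (add_le_add le_rfl (add_le_add h3 le_rfl)).trans ?_
  rw [Cardinal.add_eq_self (aleph0_le_aleph 1), Cardinal.add_eq_self (aleph0_le_aleph 1)]

/-- The copy of `ω₁` in `K`. -/
def inW (a : WT) : OnePoint LL := OnePoint.some (Sum.inl a)

lemma continuous_inW : Continuous inW := OnePoint.continuous_coe.comp continuous_inl

lemma inW_injective : Function.Injective inW :=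
  OnePoint.coe_injective.comp Sum.inl_injective

lemma isClosed_inW_Iic (b : WT) : IsClosed (inW '' Iic b) :=
  ((isCompact_Iic_WT b).image continuous_inW).isClosed

lemma infty_notMem_inW (s : Set WT) : (∞ : OnePoint LL) ∉ inW '' s := by
  rintro ⟨a, _, ha⟩
  exact OnePoint.coe_ne_infty _ ha

lemma countable_subset_range_inW {A : Set (OnePoint LL)} (hA : A.Countable)
    (hA' : A ⊆ range inW) : ∃ b, closure A ⊆ inW '' Iic b := by
  obtain ⟨b, hb⟩ := exists_gt_WT (inW ⁻¹' A) (hA.preimage_of_injOn inW_injective.injOn)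
  refine ⟨b, closure_minimal ?_ (isClosed_inW_Iic b)⟩
  intro x hx
  obtain ⟨a, rfl⟩ := hA' hx
  exact mem_image_of_mem _ (hb a hx).le

lemma not_isCompact_univ_WT : ¬ IsCompact (univ : Set WT) := by
  intro h
  have : Nonempty WT := by
    obtain ⟨b, _⟩ := exists_gt_WT ∅ countable_empty
    exact ⟨b⟩
  obtain ⟨b, hb⟩ := h.elim_directed_cover (fun b : WT => Iio b) (fun b => isOpen_Iio) (by
    intro a _
    obtain ⟨b, hb⟩ := exists_gt_WT {a} (countable_singleton a)
    exact mem_iUnion.2 ⟨b, hb a rfl⟩) (by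
    intro a b
    exact ⟨max a b, Iio_subset_Iio (le_max_left _ _), Iio_subset_Iio (le_max_right _ _)⟩)
  exact lt_irrefl b (hb (mem_univ b))

lemma infty_mem_closure_range_inW : (∞ : OnePoint LL) ∈ closure (range inW) := by
  rw [mem_closure_iff]
  intro U hU hi
  by_contra hne
  rw [not_nonempty_iff_eq_empty] at hne
  obtain ⟨_, hc⟩ := (OnePoint.isOpen_iff_of_mem hi).1 hU
  have h1 := IsClosedEmbedding.inl (X := WT) (Y := Psi) |>.isCompact_preimage hc
  apply not_isCompact_univ_WT
  convert h1
  symm
  rw [eq_univ_iff_forall]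
  intro a ha
  have : inW a ∈ U ∩ range inW := ⟨ha, a, rfl⟩
  rw [hne] at this
  exact this

lemma aleph0_lt_tightness : ℵ₀ < tightness (OnePoint LL) := by
  rw [← not_le]
  intro hle
  have hne : {κ : Cardinal.{0} | ℵ₀ ≤ κ ∧ ∀ (A : Set (OnePoint LL)) (z : OnePoint LL),
      z ∈ closure A → ∃ A' : Set (OnePoint LL), A' ⊆ A ∧ #A' ≤ κ ∧ z ∈ closure A'}.Nonempty :=
    ⟨max ℵ₀ #(OnePoint LL), le_max_left _ _, fun A z hz => ⟨A, subset_rfl,
      (mk_set_le A).trans (le_max_right _ _), hz⟩⟩
  obtain ⟨A', hA', hcard, hcl⟩ := (csInf_mem hne).2 _ _ infty_mem_closure_range_inW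
  have hA'c : A'.Countable := by
    rw [← Cardinal.le_aleph0_iff_set_countable]
    exact hcard.trans hle
  obtain ⟨b, hb⟩ := countable_subset_range_inW hA'c hA'
  exact infty_notMem_inW _ (hb hcl)

lemma tightness_eq : tightness (OnePoint LL) = ℵ_ 1 := by
  refine le_antisymm ?_ ?_
  · refine csInf_le' ⟨aleph0_le_aleph 1, fun A z hz => ⟨A, subset_rfl, ?_, hz⟩⟩
    refine (mk_set_le A).trans ?_
    have h1 : #(OnePoint LL) = #LL + 1 := Cardinal.mk_option
    rw [h1]
    refine (add_le_add mk_LL (one_le_aleph0.trans (aleph0_le_aleph 1))).trans ?_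
    rw [Cardinal.add_eq_self (aleph0_le_aleph 1)]
  · rw [← Cardinal.succ_aleph0]
    exact Order.succ_le_of_lt aleph0_lt_tightness

lemma not_sequentialSpace : ¬ SequentialSpace (OnePoint LL) := by
  intro h
  have h1 : IsSeqClosed (range inW) := by
    intro x p hx hp
    obtain ⟨b, hb⟩ := countable_subset_range_inW (countable_range x)
      (by rintro _ ⟨n, rfl⟩; exact hx n)
    have h2 : p ∈ closure (range x) := mem_closure_of_tendsto hp
      (Eventually.of_forall fun n => mem_range_self n)
    obtain ⟨a, _, ha⟩ := hb h2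
    exact ⟨a, ha⟩
  have h2 := h1.isClosed.closure_eq
  have h3 := infty_mem_closure_range_inW
  rw [h2, ← image_univ] at h3
  exact infty_notMem_inW _ h3

/-- The copy of `Ψ` in `K`. -/
def inP (a : Psi) : OnePoint LL := OnePoint.some (Sum.inr a)

lemma isOpenEmbedding_inP : IsOpenEmbedding inP :=
  OnePoint.isOpenEmbedding_coe.comp IsOpenEmbedding.inr

lemma not_isMonolithic : ¬ IsMonolithic (OnePoint LL) := by
  intro hm
  let A : Set (OnePoint LL) := range fun l : List Bool => inP (Psi.node l)
  have hinj : Function.Injective fun l : List Bool => inP (Psi.node l) := by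
    intro l l' h
    exact Sum.inl_injective (isOpenEmbedding_inP.injective h)
  have hAinf : A.Infinite := infinite_range_of_injective hinj
  have h1 := hm A hAinf
  have h2 : #A ≤ ℵ₀ := by
    rw [Cardinal.le_aleph0_iff_set_countable]
    exact countable_range _
  have hne : {κ : Cardinal.{0} | ∃ N : Set (Set (closure A)),
      IsNetwork (closure A) N ∧ #N = κ}.Nonempty :=
    ⟨#(univ : Set (Set (closure A))), univ, fun U _ z hz => ⟨U, mem_univ _, hz, subset_rfl⟩,
      rfl⟩
  obtain ⟨N, hN, hNc⟩ := csInf_mem hne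
  have hNc' : #N ≤ ℵ₀ := by
    rw [hNc]
    exact h1.trans h2
  have hlim : ∀ w : W, inP (Psi.lim w) ∈ closure A := by
    intro w
    have := ((isOpenEmbedding_inP.continuous.tendsto (Psi.lim w)).comp (Psi.tendsto_branch w))
    exact mem_closure_of_tendsto this (Eventually.of_forall fun n => ⟨branch w n, rfl⟩)
  have hM : ∀ w : W, ∃ M ∈ N, (⟨inP (Psi.lim w), hlim w⟩ : closure A) ∈ M ∧
      M ⊆ Subtype.val ⁻¹' (inP '' Psi.nb w 0) := by
    intro w
    exact hN _ ((isOpenEmbedding_inP.isOpenMap _ (Psi.isOpen_nb w 0)).preimage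
      continuous_subtype_val) _ (mem_image_of_mem _ (mem_insert _ _))
  choose M hMN hwM hMnb using hM
  have hMinj : Function.Injective fun w : W => (⟨M w, hMN w⟩ : N) := by
    intro w w' h
    have h3 : M w = M w' := congrArg Subtype.val h
    have h4 := hwM w
    rw [h3] at h4
    obtain ⟨y, hy, hyw⟩ := hMnb w' h4
    have h5 : y = Psi.lim w := isOpenEmbedding_inP.injective hyw
    rw [h5] at hy
    rcases hy with h | ⟨n, hn⟩
    · exact Sum.inr_injective h
    · exact absurd hn (by simp [Psi.lim, Psi.node])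
  have h6 := (Cardinal.mk_le_of_injective hMinj).trans hNc'
  rw [mk_W] at h6
  exact absurd h6 (not_le.2 aleph0_lt_aleph_one)

/-- **Tkachenko's question, negative answer to all three parts.** There are an Eberlein compact
space `X`, a dense subspace `S` of `C_p(X)`, a Tychonoff continuous image `Y` of `S` and a compact
subset `B` of `Y` such that `B` has tightness `ℵ₁` (so uncountable tightness), is not sequential
and is not monolithic. -/
theorem result :
    ∃ (X : Type) (_ : TopologicalSpace X), IsEberleinCompact X ∧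
      ∃ S : Set (Cp X), Dense S ∧
        ∃ (Y : Type) (_ : TopologicalSpace Y) (_ : T35Space Y) (f : S → Y),
          Continuous f ∧ Function.Surjective f ∧
          ∃ B : Set Y, IsCompact B ∧
            tightness B = ℵ_ 1 ∧ ¬ SequentialSpace B ∧ ¬ IsMonolithic B := by
  obtain ⟨X, tX, hX, S, hS, Y, tY, hY, f, hf, hfs, B, hB, ⟨h⟩⟩ :=
    realize LL_countable_nhds mk_LL
  refine ⟨X, tX, hX, S, hS, Y, tY, hY, f, hf, hfs, B, hB,
    (le_antisymm (tightness_le_of_homeomorph h.symm) (tightness_le_of_homeomorph h)).trans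
      tightness_eq, ?_,
    not_isMonolithic_of_homeomorph h not_isMonolithic⟩
  intro hseq
  apply not_sequentialSpace
  exact h.symm.isQuotientMap.sequentialSpace

end Pool.Agent.Results.MP_570618_gt.TkachenkoCounterexample
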